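import Pool.Agent.P.MP_78a647_lc.Full.Final

namespace Pool.Agent.Results.MP_78a647_lc.PCCCImpliesMA

open Pool.Agent.P.MP_78a647_lc Cardinal

/-- If every ccc poset is productively ccc, then Martin's axiom for `ℵ₁` dense sets holds: for
every nonempty ccc poset and every family of at most `ℵ₁` dense subsets there is a filter meeting
every member of the family. -/
theorem result : PCCC →
    ∀ (P : Type) [PartialOrder P] [Nonempty P], CCC P →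
      ∀ 𝒟 : Set (Set P), Cardinal.mk 𝒟 ≤ ℵ₁ → (∀ D ∈ 𝒟, ∀ p, ∃ q ∈ D, q ≤ p) →
        ∃ G : Set P, G.Nonempty ∧ (∀ p ∈ G, ∀ q, p ≤ q → q ∈ G) ∧
          (∀ p ∈ G, ∀ q ∈ G, ∃ r ∈ G, r ≤ p ∧ r ≤ q) ∧ ∀ D ∈ 𝒟, (G ∩ D).Nonempty := by
  intro h P _ _ hP 𝒟 h1 h2
  obtain ⟨G, hG⟩ := Full.MA_of_core (Full.core_of_pccc h) P hP 𝒟 h1 h2
  refine ⟨G, G.nonempty, fun p hp q hq => G.mem_of_le hq hp, fun p hp q hq => ?_, fun D hD => ?_⟩
  · exact G.directed p hp q hq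
  · obtain ⟨p, h3, h4⟩ := hG D hD
    exact ⟨p, h3, h4⟩

end Pool.Agent.Results.MP_78a647_lc.PCCCImpliesMA
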