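import Pool.Agent.P.MP_78a647_lc.Pw.Link

namespace Pool.Agent.Results.MP_78a647_lc.PowersCollapse

open Pool.Agent.P.MP_78a647_lc Cardinal

/-- Let `n ≥ 1` and `k ≥ 2`. If there are no `k` posets whose product collapses `ω₁` while the
product of any `k - 1` of them has a ccc `n`-th power, then Martin's axiom for `ℵ₁` dense sets
holds for every poset all of whose finite powers are ccc. -/
theorem result (n k : ℕ) (hn : 1 ≤ n) (hk : 2 ≤ k)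
    (H : ∀ (Q : Fin k → Type) [∀ i, PartialOrder (Q i)],
      (∀ j, CCC (Fin n → ∀ i : {i : Fin k // i ≠ j}, Q i.1)) → ¬ Pw.Collapses (∀ i, Q i)) :
    ∀ (P : Type) [PartialOrder P] [Nonempty P], (∀ m, CCC (Fin m → P)) →
      ∀ 𝒟 : Set (Set P), Cardinal.mk 𝒟 ≤ ℵ₁ → (∀ D ∈ 𝒟, ∀ p, ∃ q ∈ D, q ≤ p) →
        ∃ G : Set P, G.Nonempty ∧ (∀ p ∈ G, ∀ q, p ≤ q → q ∈ G) ∧
          (∀ p ∈ G, ∀ q ∈ G, ∃ r ∈ G, r ≤ p ∧ r ≤ q) ∧ ∀ D ∈ 𝒟, (G ∩ D).Nonempty := by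
  intro P _ _ hP 𝒟 h1 h2
  have h3 : CCC P := CCC.of_map (fun q (_ : Fin 1) => q)
    (fun _ _ ⟨r, h1, h2⟩ => ⟨r 0, h1 0, h2 0⟩) (hP 1)
  obtain ⟨G, hG⟩ := Pw.MA_of_link P h3 (Pw.core_pow hP hn hk H) 𝒟 h1 h2
  refine ⟨G, G.nonempty, fun p hp q hq => G.mem_of_le hq hp, fun p hp q hq => ?_, fun D hD => ?_⟩
  · exact G.directed p hp q hq
  · obtain ⟨p, h3, h4⟩ := hG D hD
    exact ⟨p, h3, h4⟩

end Pool.Agent.Results.MP_78a647_lc.PowersCollapse
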